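import Pool.Agent.Work.MP_7daf81_ag.X16.Main

/-! A toric chart for the anticanonical volume form on every smooth threefold linear section of
the Lagrangian Grassmannian `LG(3,6)`. -/

namespace Pool.Agent.Results.MP_7daf81_ag.GenusNine

open Pool.Agent.Work.MP_7daf81_ag.X16

theorem result (σ : Matrix (Fin 6) (Fin 6) ℂ) (hσ : σ.transpose = -σ) (hdet : σ.det ≠ 0)
    (h : Fin 3 → Fin 6 → Fin 6 → Fin 6 → ℂ) (h1 : ∀ k a b c, h k a b c = -h k b a c)
    (h2 : ∀ k a b c, h k a b c = -h k a c b) (hX : SmoothThreefold σ h) :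
    ∃ b : Fin 3 ⊕ Fin 3 → Fin 6 → ℂ, LinearIndependent ℂ b ∧
      ∃ x : Fin 3 × Fin 3 → K, OnX σ h (chartPoint b x) ∧
        IntermediateField.adjoin ℂ (Set.range x) = ⊤ ∧ jacE σ h b x ≠ 0 ∧
        ∃ c : ℂ, c ≠ 0 ∧ ∀ D : Fin 3 → Derivation ℂ K K,
          (Matrix.of fun i l => D i (x (0, l))).det * (tt 0 * tt 1 * tt 2) =
            algebraMap ℂ K c * (Matrix.of fun i j => D i (tt j)).det * jacE σ h b x :=
  toricChart σ hσ hdet h h1 h2 hX

end Pool.Agent.Results.MP_7daf81_ag.GenusNine
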