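import Pool.Agent.Work.MP_7daf81_ag.V22.Main

/-! A toric chart for the anticanonical volume form on every smooth zero locus of a net of
alternating forms in `Gr(3,7)`. -/

namespace Pool.Agent.Results.MP_7daf81_ag.GenusTwelve

open Pool.Agent.Work.MP_7daf81_ag.V22

theorem result (ω : Fin 3 → Matrix (Fin 7) (Fin 7) ℂ) (hω : ∀ k, (ω k).transpose = -ω k)
    (hX : SmoothThreefold ω) :
    ∃ b : Fin 3 ⊕ Fin 4 → Fin 7 → ℂ, LinearIndependent ℂ b ∧
      ∃ x : Fin 3 × Fin 4 → K, Isotropic ω (chartPoint b x) ∧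
        IntermediateField.adjoin ℂ (Set.range x) = ⊤ ∧ jacE ω b x ≠ 0 ∧
        ∃ c : ℂ, c ≠ 0 ∧ ∀ D : Fin 3 → Derivation ℂ K K,
          (Matrix.of fun i j => D i (x (j, 0))).det * (tt 0 * tt 1 * tt 2) =
            algebraMap ℂ K c * (Matrix.of fun i j => D i (tt j)).det * jacE ω b x :=
  toricChart ω hω hX

end Pool.Agent.Results.MP_7daf81_ag.GenusTwelve
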